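import Pool.Agent.N783.PF.Lat
import Pool.Agent.N862.PP.Ns

/-!
# Project PF (helper783), parts PAR, PARQ, NS, PIN: parities and square classes from the norm

Author: helper426, after the files of helper227 (project PJ), helper862 (project PP) and helper691
(project PQ); here over a general Dedekind domain `R`.
-/

set_option autoImplicit false
set_option linter.all false

open Polynomial IsDedekindDomain WithZero UniqueFactorizationMonoid NumberField
open scoped Classical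

namespace Pool.Agent.N426.PF

open Pool.Agent.N874.PP (Ev Sq1)
open Pool.Agent.N862.PP (val_eq ev_iff_count ev_mul_sq cn cn_sum cn_pow
  cn_zero cn_one not_ev_of_exp exists_two sq1_mul_sq)

section gen

variable {R L : Type} [CommRing R] [Field L] [Algebra R L]

/-- `L = K(θ)` is of degree `2 g + 1` over `K` and `f(θ) = 0`. -/
structure IsG (g : ℕ) (K : Type) [Field K] [Algebra K L] (f : R[X]) (θ : L) : Prop where
  mon : f.Monic
  deg : f.natDegree = 2 * g + 1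
  root : eval₂ (algebraMap R L) θ f = 0
  rank : Module.finrank K L = 2 * g + 1
  gen : ∀ x : L, ∃ c : Fin (2 * g + 1) → K, x = ∑ i, algebraMap K L (c i) * θ ^ (i : ℕ)

variable {g : ℕ} {K : Type} [Field K] [Algebra K L] {f : R[X]} {θ : L}

theorem IsG.span (h : IsG g K f θ) :
    ⊤ ≤ Submodule.span K (Set.range fun i : Fin (2 * g + 1) => θ ^ (i : ℕ)) := by
  intro x _
  obtain ⟨c, rfl⟩ := h.gen x
  refine Submodule.sum_mem _ fun i _ => ?_
  rw [← Algebra.smul_def]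
  exact Submodule.smul_mem _ _ (Submodule.subset_span ⟨i, rfl⟩)

/-- The basis `1`, `θ`, ..., `θ ^ (2 g)`. -/
noncomputable def IsG.basis (h : IsG g K f θ) : Module.Basis (Fin (2 * g + 1)) K L :=
  basisOfTopLeSpanOfCardEqFinrank (fun i : Fin (2 * g + 1) => θ ^ (i : ℕ)) h.span
    (by rw [h.rank, Fintype.card_fin])

theorem IsG.basis_apply (h : IsG g K f θ) (i : Fin (2 * g + 1)) :
    h.basis i = θ ^ (i : ℕ) := by
  rw [IsG.basis, coe_basisOfTopLeSpanOfCardEqFinrank]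

/-- `x = v 0 + v 1 θ + ... + v (2 g) θ ^ (2 g)`. -/
def Crd (g : ℕ) (θ : L) (v : Fin (2 * g + 1) → R) (x : L) : Prop :=
  x = ∑ i, algebraMap R L (v i) * θ ^ (i : ℕ)

end gen

section basic

variable {R K L O : Type} [CommRing R] [IsDedekindDomain R] [Field K]
  [Algebra R K] [IsFractionRing R K]
  [Field L] [Algebra K L] [Algebra R L] [IsScalarTower R K L] [CommRing O]
  [IsDedekindDomain O] [Algebra O L] [IsFractionRing O L] [Algebra R O]
  [IsScalarTower R O L] [IsIntegralClosure O R L] {g : ℕ} {f : R[X]} {θ : L}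

theorem inj : Function.Injective (algebraMap R K) := IsFractionRing.injective R K

include K in
theorem algL_inj : Function.Injective (algebraMap R L) := by
  rw [IsScalarTower.algebraMap_eq R K L]
  exact (algebraMap K L).injective.comp (IsFractionRing.injective R K)

theorem isInt (x : O) : IsIntegral R (algebraMap O L x) :=
  (IsIntegralClosure.isIntegral_iff (R := R) (A := O)).mpr ⟨x, rfl⟩

include K L in
theorem algO_inj : Function.Injective (algebraMap R O) := by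
  have h : Function.Injective (algebraMap R L) := algL_inj (K := K)
  rw [IsScalarTower.algebraMap_eq R O L] at h
  exact Function.Injective.of_comp h

include K L in
theorem tf_O : Module.IsTorsionFree R O := by
  have : FaithfulSMul R O := (faithfulSMul_iff_algebraMap_injective R O).mpr
    (algO_inj (K := K) (L := L))
  infer_instance

/-- coordinates -/
noncomputable def co (h : IsG g K f θ) (i : Fin (2 * g + 1)) : L →ₗ[K] K := h.basis.coord i

lemma co_pow (h : IsG g K f θ) (i j : Fin (2 * g + 1)) :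
    co h i (θ ^ (j : ℕ)) = if j = i then 1 else 0 := by
  rw [co, ← h.basis_apply, Module.Basis.coord_apply, Module.Basis.repr_self,
    Finsupp.single_apply]

lemma co_sum (h : IsG g K f θ) (c : Fin (2 * g + 1) → K) (i : Fin (2 * g + 1)) :
    co h i (∑ j, algebraMap K L (c j) * θ ^ (j : ℕ)) = c i := by
  rw [map_sum]
  have h1 : ∀ j : Fin (2 * g + 1), co h i (algebraMap K L (c j) * θ ^ (j : ℕ)) =
      c j * if j = i then 1 else 0 := fun j => by
    rw [← Algebra.smul_def, map_smul, co_pow, smul_eq_mul]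
  simp only [h1]
  simp

lemma ext_co (h : IsG g K f θ) (x : L) :
    x = ∑ j, algebraMap K L (co h j x) * θ ^ (j : ℕ) := by
  obtain ⟨c, hc⟩ := h.gen x
  have h1 : ∀ j, co h j x = c j := fun j => by
    rw [hc, co_sum]
  simp only [h1]
  exact hc

lemma crd_co (h : IsG g K f θ) {v : Fin (2 * g + 1) → R} {x : L} (hv : Crd g θ v x)
    (i : Fin (2 * g + 1)) : co h i x = algebraMap R K (v i) := by
  have e : x = ∑ j, algebraMap K L (algebraMap R K (v j)) * θ ^ (j : ℕ) := by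
    rw [hv]
    refine Finset.sum_congr rfl fun j _ => ?_
    rw [← IsScalarTower.algebraMap_apply]
  rw [e, co_sum]

lemma crd_of_co (h : IsG g K f θ) {v : Fin (2 * g + 1) → R} {x : L}
    (hv : ∀ i, co h i x = algebraMap R K (v i)) : Crd g θ v x := by
  unfold Crd
  conv_lhs => rw [ext_co h x]
  refine Finset.sum_congr rfl fun j _ => ?_
  rw [hv j, ← IsScalarTower.algebraMap_apply]

lemma smul_alg (p : R) (x : L) : algebraMap R L p * x = algebraMap R K p • x := by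
  rw [Algebra.smul_def, ← IsScalarTower.algebraMap_apply]

/-- `f` is the minimal polynomial -/
lemma irrK (h : IsG g K f θ) : Irreducible (f.map (algebraMap R K)) := by
  let pb : PowerBasis K L := ⟨θ, 2 * g + 1, h.basis, fun i => h.basis_apply i⟩
  have hdeg : (minpoly K θ).natDegree = 2 * g + 1 := pb.natDegree_minpoly
  have hint : IsIntegral K θ := pb.isIntegral_gen
  have hmon : (f.map (algebraMap R K)).Monic := h.mon.map _
  have h0 : aeval θ (f.map (algebraMap R K)) = 0 := by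
    rw [aeval_map_algebraMap]
    exact h.root
  have hd : minpoly K θ ∣ f.map (algebraMap R K) := minpoly.dvd K θ h0
  have he : f.map (algebraMap R K) = minpoly K θ :=
    Polynomial.eq_of_monic_of_dvd_of_natDegree_le (minpoly.monic hint) hmon hd (by
      rw [hdeg, h.mon.natDegree_map, h.deg])
  rw [he]
  exact minpoly.irreducible hint

lemma theta_int (h : IsG g K f θ) : IsIntegral R θ := ⟨f, h.mon, h.root⟩


end basic

section bas

variable {R K L O : Type} [CommRing R] [IsDedekindDomain R] [Field K]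
  [Algebra R K] [IsFractionRing R K]
  [Field L] [Algebra K L] [Algebra R L] [IsScalarTower R K L] [CommRing O]
  [IsDedekindDomain O] [Algebra O L] [IsFractionRing O L] [Algebra R O]
  [IsScalarTower R O L] [IsIntegralClosure O R L] {g : ℕ} {f : R[X]} {θ : L}


theorem exists_t (h : IsG g K f θ) : ∃ t : O, algebraMap O L t = θ :=
  (IsIntegralClosure.isIntegral_iff (R := R) (A := O)).mp (theta_int h)

theorem sum_t {t : O} (ht : algebraMap O L t = θ) (v : Fin (2 * g + 1) → R) :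
    algebraMap O L (∑ i, v i • t ^ (i : ℕ)) = ∑ i, algebraMap R L (v i) * θ ^ (i : ℕ) := by
  rw [map_sum]
  refine Finset.sum_congr rfl fun i _ => ?_
  rw [Algebra.smul_def, map_mul, map_pow, ht, ← IsScalarTower.algebraMap_apply R O L]

/-- the basis -/
theorem exists_bas (h : IsG g K f θ)
    (hI : ∀ x : L, IsIntegral R x ↔ ∃ v : Fin (2 * g + 1) → R, Crd g θ v x)
    {t : O} (ht : algebraMap O L t = θ) :
    ∃ b : Module.Basis (Fin (2 * g + 1)) R O, ∀ i, b i = t ^ (i : ℕ) := by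
  have hli : LinearIndependent R (fun i : Fin (2 * g + 1) => t ^ (i : ℕ)) := by
    rw [Fintype.linearIndependent_iff]
    intro v hv i
    have h1 := sum_t ht v
    rw [hv, map_zero] at h1
    have h2 : Crd g θ v (0 : L) := h1
    have h3 := crd_co h h2 i
    rw [map_zero] at h3
    exact (map_eq_zero_iff _ (inj (R := R) (K := K))).1 h3.symm
  have hsp : ⊤ ≤ Submodule.span R (Set.range fun i : Fin (2 * g + 1) => t ^ (i : ℕ)) := by
    intro x _
    obtain ⟨v, hv⟩ := (hI _).1 (isInt (L := L) x)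
    have h1 : x = ∑ i, v i • t ^ (i : ℕ) := by
      apply IsFractionRing.injective O L
      rw [sum_t ht]
      exact hv
    rw [h1]
    exact Submodule.sum_mem _ fun i _ => Submodule.smul_mem _ _ (Submodule.subset_span ⟨i, rfl⟩)
  exact ⟨Module.Basis.mk hli hsp, fun i => by rw [Module.Basis.mk_apply]⟩

theorem fd (h : IsG g K f θ) : FiniteDimensional K L :=
  Module.finite_of_finrank_pos (by rw [h.rank]; omega)

theorem norm_alg (h : IsG g K f θ) (b : Module.Basis (Fin (2 * g + 1)) R O) (y : O) :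
    algebraMap R K (Algebra.norm R y) = Algebra.norm K (algebraMap O L y) := by
  have hfree : Module.Free R O := Module.Free.of_basis b
  have hfin : Module.Finite R O := Module.Finite.of_basis b
  have hfd := fd h
  rw [← Algebra.algebraMap_intNorm (A := R) (B := O) (L := L), Algebra.intNorm_eq_norm]

/-- the characteristic polynomial of `θ` -/
theorem minp (h : IsG g K f θ) : minpoly K θ = f.map (algebraMap R K) := by
  let pb : PowerBasis K L := ⟨θ, 2 * g + 1, h.basis, fun i => h.basis_apply i⟩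
  have hint : IsIntegral K θ := pb.isIntegral_gen
  have h0 : aeval θ (f.map (algebraMap R K)) = 0 := by
    rw [aeval_map_algebraMap]
    exact h.root
  exact (minpoly.eq_of_irreducible_of_monic (irrK h) h0 (h.mon.map _)).symm

theorem norm_lin (h : IsG g K f θ) (c : R) :
    Algebra.norm K (algebraMap R L c - θ) = algebraMap R K (f.eval c) := by
  let pb : PowerBasis K L := ⟨θ, 2 * g + 1, h.basis, fun i => h.basis_apply i⟩
  have h1 : (Algebra.leftMulMatrix h.basis θ).charpoly = f.map (algebraMap R K) :=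
    (charpoly_leftMulMatrix pb).trans (minp h)
  have h2 := congrArg (Polynomial.eval (algebraMap R K c)) h1
  rw [Matrix.eval_charpoly] at h2
  have h3 : (f.map (algebraMap R K)).eval (algebraMap R K c) =
      algebraMap R K (f.eval c) := Polynomial.eval_map_apply (algebraMap R K) c
  rw [h3] at h2
  rw [← h2, Algebra.norm_eq_matrix_det h.basis, map_sub]
  congr 2
  rw [IsScalarTower.algebraMap_apply R K L, AlgHom.commutes]
  rfl

end bas

section deg

variable {R K L O : Type} [CommRing R] [IsDedekindDomain R] [Field K]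
  [Algebra R K] [IsFractionRing R K]
  [Field L] [Algebra K L] [Algebra R L] [IsScalarTower R K L] [CommRing O]
  [IsDedekindDomain O] [Algebra O L] [IsFractionRing O L] [Algebra R O]
  [IsScalarTower R O L] [IsIntegralClosure O R L] {g : ℕ} {f : R[X]} {θ : L}

/-- The prime `𝔓` lies over `𝔭`. -/
def Ov {R O : Type} [CommRing R] [CommRing O] [IsDedekindDomain O] [Algebra R O] (𝔭 : Ideal R)
    (𝔓 : HeightOneSpectrum O) : Prop := ∀ a ∈ 𝔭, algebraMap R O a ∈ 𝔓.asIdeal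

theorem ov_comap {R O : Type} [CommRing R] [IsDedekindDomain R] [CommRing O] [IsDedekindDomain O]
    [Algebra R O] {𝔭 : Ideal R} (hp : 𝔭.IsPrime) (hp0 : 𝔭 ≠ ⊥) {𝔓 : HeightOneSpectrum O}
    (h : Ov 𝔭 𝔓) : 𝔓.asIdeal.comap (algebraMap R O) = 𝔭 := by
  have hm : 𝔭.IsMaximal := hp.isMaximal hp0
  have h1 : (𝔓.asIdeal.comap (algebraMap R O)).IsPrime := Ideal.IsPrime.comap _
  exact (hm.eq_of_le h1.ne_top h).symm

theorem ov_iff {R O : Type} [CommRing R] [IsDedekindDomain R] [CommRing O] [IsDedekindDomain O]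
    [Algebra R O] {𝔭 : Ideal R} (hp : 𝔭.IsPrime) (hp0 : 𝔭 ≠ ⊥) {𝔓 : HeightOneSpectrum O}
    (h : Ov 𝔭 𝔓) (c : R) : algebraMap R O c ∈ 𝔓.asIdeal ↔ c ∈ 𝔭 := by
  rw [← Ideal.mem_comap, ov_comap hp hp0 h]

/-- Parity. -/
theorem parity [FiniteDimensional K L] [Module.Finite R O] [Module.IsTorsionFree R O]
    {𝔭 : Ideal R} (hpp : 𝔭.IsPrime) (hpb : 𝔭 ≠ ⊥) (𝔓₀ : HeightOneSpectrum O)
    (hodd : Odd (cn R 𝔭 𝔓₀.asIdeal)) {x : L} (hx : x ≠ 0)
    (hsq : IsSquare (Algebra.norm K x))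
    (hoth : ∀ 𝔓 : HeightOneSpectrum O, Ov 𝔭 𝔓 → 𝔓 ≠ 𝔓₀ → Ev 𝔓 x ∨
      Even (cn R 𝔭 𝔓.asIdeal)) : Ev 𝔓₀ x := by
  obtain ⟨z₁, w, hw, rfl⟩ := IsFractionRing.div_surjective (A := O) x
  have hw0 : w ≠ 0 := nonZeroDivisors.ne_zero hw
  have hwL : algebraMap O L w ≠ 0 := by
    simpa using hw0
  -- `z = z₁ w`
  have hz0 : z₁ * w ≠ 0 := by
    rintro h0
    rcases mul_eq_zero.mp h0 with rfl | h0
    · simp at hx
    · exact hw0 h0
  have hxz : algebraMap O L z₁ / algebraMap O L w * algebraMap O L w ^ 2 =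
      algebraMap O L (z₁ * w) := by
    rw [map_mul]
    field_simp
  have hev : ∀ 𝔓 : HeightOneSpectrum O, Ev 𝔓 (algebraMap O L z₁ / algebraMap O L w) ↔
      Even ((normalizedFactors (Ideal.span {z₁ * w})).count 𝔓.asIdeal) := by
    intro 𝔓
    rw [← ev_mul_sq 𝔓 hwL, hxz, ev_iff_count 𝔓 hz0]
  -- the norm is a square
  have hnsq : ∃ m : R, Algebra.intNorm R O (z₁ * w) = m * m := by
    have h1 : IsSquare (algebraMap R K (Algebra.intNorm R O (z₁ * w))) := by
      rw [Algebra.algebraMap_intNorm (L := L), ← hxz, map_mul, map_pow]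
      exact hsq.mul (IsSquare.sq _)
    obtain ⟨r, hr⟩ := h1
    have hint : IsIntegral R r := by
      refine IsIntegral.of_pow (n := 2) (by norm_num) ?_
      rw [sq, ← hr]
      exact isIntegral_algebraMap
    obtain ⟨m, rfl⟩ := IsIntegrallyClosed.isIntegral_iff.mp hint
    exact ⟨m, IsFractionRing.injective R K (by rw [hr, map_mul])⟩
  obtain ⟨m, hm⟩ := hnsq
  have hzI : (Ideal.span {z₁ * w} : Ideal O) ≠ ⊥ := by
    rw [Ne, Ideal.span_singleton_eq_bot]
    exact hz0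
  have hm0 : m ≠ 0 := by
    rintro rfl
    have := (Algebra.intNorm_eq_zero (A := R) (B := O)).mp (hm.trans (mul_zero _))
    exact hz0 this
  have heven : Even (cn R 𝔭 (Ideal.span {z₁ * w} : Ideal O)) := by
    unfold cn
    rw [Ideal.relNorm_singleton, hm, ← Ideal.span_singleton_mul_span_singleton,
      normalizedFactors_mul, Multiset.count_add]
    · exact ⟨_, rfl⟩
    · simpa using hm0
    · simpa using hm0
  rw [cn_sum _ hzI] at heven
  rw [hev]
  by_cases hmem : 𝔓₀.asIdeal ∈ (normalizedFactors (Ideal.span {z₁ * w} : Ideal O)).toFinset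
  · rw [← Finset.add_sum_erase _ _ hmem] at heven
    have hrest : Even (∑ J ∈ (normalizedFactors (Ideal.span {z₁ * w} : Ideal O)).toFinset.erase
        𝔓₀.asIdeal, (normalizedFactors (Ideal.span {z₁ * w} : Ideal O)).count J *
          cn R 𝔭 J) := by
      apply Finset.even_sum
      intro J hJ
      rw [Finset.mem_erase, Multiset.mem_toFinset] at hJ
      obtain ⟨hJ1, hJ2⟩ := hJ
      have hJp := prime_of_normalized_factor J hJ2
      have hJ3 : J.IsPrime := Ideal.isPrime_of_prime hJp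
      by_cases hJP : 𝔭 ≤ J.comap (algebraMap R O)
      · let 𝔓 : HeightOneSpectrum O := ⟨J, hJ3, hJp.ne_zero⟩
        have hov' : Ov 𝔭 𝔓 := hJP
        have hne : 𝔓 ≠ 𝔓₀ := fun h0 => hJ1 (by rw [← h0])
        rcases hoth 𝔓 hov' hne with h1 | h1
        · exact ((hev 𝔓).mp h1).mul_right _
        · exact h1.mul_left _
      · rw [cn_zero hpp hpb hJ3 hJp.ne_zero hJP, mul_zero]
        exact ⟨0, rfl⟩
    have h1 := (Nat.even_add.mp heven).mpr hrest
    rcases Nat.even_mul.mp h1 with h2 | h2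
    · exact h2
    · exact absurd h2 (Nat.not_even_iff_odd.mpr hodd)
  · rw [Multiset.mem_toFinset] at hmem
    rw [Multiset.count_eq_zero_of_notMem hmem]
    exact ⟨0, rfl⟩

/-- the number of factors is the degree of the residue fields -/
theorem cn_eq [Module.Finite R O] [Module.IsTorsionFree R O] [PerfectField (FractionRing R)]
    {𝔭 : Ideal R} (hpp : 𝔭.IsPrime) (hpb : 𝔭 ≠ ⊥) (𝔓 : HeightOneSpectrum O)
    [𝔓.asIdeal.LiesOver 𝔭] :
    cn R 𝔭 𝔓.asIdeal = Module.finrank (R ⧸ 𝔭) (O ⧸ 𝔓.asIdeal) := by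
  have hm : 𝔭.IsMaximal := hpp.isMaximal hpb
  have hm' : 𝔓.asIdeal.IsMaximal := 𝔓.isMaximal
  have hirr : Irreducible 𝔭 := (Ideal.prime_of_isPrime hpb hpp).irreducible
  rw [← Ideal.inertiaDeg_eq_of_isMaximal]
  unfold cn
  rw [Ideal.relNorm_eq_pow_of_isMaximal 𝔓.asIdeal 𝔭, normalizedFactors_pow, Multiset.count_nsmul,
    normalizedFactors_irreducible hirr, normalize_eq, Multiset.count_singleton_self, mul_one]

/-- primes of degree one -/
theorem cn_deg_one [Module.Finite R O] [Module.IsTorsionFree R O] [PerfectField (FractionRing R)]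
    {𝔭 : Ideal R} (hpp : 𝔭.IsPrime) (hpb : 𝔭 ≠ ⊥) {𝔓 : HeightOneSpectrum O} (hov : Ov 𝔭 𝔓)
    (hs : ∀ y : O, ∃ r : R, y - algebraMap R O r ∈ 𝔓.asIdeal) : cn R 𝔭 𝔓.asIdeal = 1 := by
  have hlo : 𝔓.asIdeal.LiesOver 𝔭 := ⟨(ov_comap hpp hpb hov).symm⟩
  rw [cn_eq hpp hpb 𝔓]
  have hm : 𝔭.IsMaximal := hpp.isMaximal hpb
  let _ : Field (R ⧸ 𝔭) := Ideal.Quotient.field 𝔭
  have hnt : Nontrivial (O ⧸ 𝔓.asIdeal) := Ideal.Quotient.nontrivial_iff.2 𝔓.isPrime.ne_top
  refine finrank_eq_one (1 : O ⧸ 𝔓.asIdeal) one_ne_zero fun w => ?_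
  obtain ⟨y, rfl⟩ := Ideal.Quotient.mk_surjective w
  obtain ⟨r, hr⟩ := hs y
  refine ⟨Ideal.Quotient.mk 𝔭 r, ?_⟩
  rw [Algebra.smul_def, mul_one]
  symm
  exact Ideal.Quotient.eq.2 hr

/-- all elements are congruent to elements of `R` -/
theorem exists_res {n : ℕ} (b : Module.Basis (Fin n) R O) {t : O} (hb : ∀ i, b i = t ^ (i : ℕ))
    {𝔓 : HeightOneSpectrum O} {c : R} (hc : t - algebraMap R O c ∈ 𝔓.asIdeal) (y : O) :
    ∃ r : R, y - algebraMap R O r ∈ 𝔓.asIdeal := by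
  refine ⟨∑ i, b.repr y i * c ^ (i : ℕ), ?_⟩
  have e : ∑ i, algebraMap R O (b.repr y i) * t ^ (i : ℕ) = y := by
    conv_rhs => rw [← b.sum_repr y]
    refine Finset.sum_congr rfl fun i _ => ?_
    rw [Algebra.smul_def, hb]
  have h1 : y - algebraMap R O (∑ i, b.repr y i * c ^ (i : ℕ)) =
      ∑ i, algebraMap R O (b.repr y i) * (t ^ (i : ℕ) - algebraMap R O c ^ (i : ℕ)) := by
    simp only [mul_sub, Finset.sum_sub_distrib, e, map_sum, map_mul, map_pow]
  rw [h1]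
  refine Ideal.sum_mem _ fun i _ => Ideal.mul_mem_left _ _ ?_
  exact Ideal.mem_of_dvd _ (sub_dvd_pow_sub_pow _ _ _) hc

/-- the primes over `𝔭` are the factors of `𝔭 O` -/
theorem mem_nf {𝔭 : Ideal R} (h0 : 𝔭.map (algebraMap R O) ≠ ⊥) (𝔓 : HeightOneSpectrum O) :
    𝔓.asIdeal ∈ normalizedFactors (𝔭.map (algebraMap R O)) ↔ Ov 𝔭 𝔓 := by
  rw [Ideal.mem_normalizedFactors_iff h0, Ideal.map_le_iff_le_comap]
  exact ⟨fun h => h.2, fun h => ⟨𝔓.isPrime, h⟩⟩

theorem cn_map [Module.Finite R O] [Module.IsTorsionFree R O] {n : ℕ}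
    (b : Module.Basis (Fin n) R O) {𝔭 : Ideal R} (hpp : 𝔭.IsPrime) (hpb : 𝔭 ≠ ⊥) :
    cn R 𝔭 (𝔭.map (algebraMap R O)) = n := by
  have hirr : Irreducible 𝔭 := (Ideal.prime_of_isPrime hpb hpp).irreducible
  unfold cn
  rw [Ideal.relNorm_algebraMap, Module.finrank_eq_card_basis b, Fintype.card_fin,
    normalizedFactors_pow, Multiset.count_nsmul,
    normalizedFactors_irreducible hirr, normalize_eq, Multiset.count_singleton_self, mul_one]

end deg

section ns

variable {R K L O : Type} [CommRing R] [IsDedekindDomain R] [Field K]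
  [Algebra R K] [IsFractionRing R K]
  [Field L] [Algebra K L] [Algebra R L] [IsScalarTower R K L] [CommRing O]
  [IsDedekindDomain O] [Algebra O L] [IsFractionRing O L] [Algebra R O]
  [IsScalarTower R O L] [IsIntegralClosure O R L] {g : ℕ} {f : R[X]} {θ : L}

/-- a common denominator -/
theorem exists_den (h : IsG g K f θ) {t : O} (ht : algebraMap O L t = θ) (x : L) :
    ∃ (d : R) (z : O), d ≠ 0 ∧ algebraMap R L d * x = algebraMap O L z := by
  obtain ⟨⟨c, hc⟩, hint⟩ := IsLocalization.exist_integer_multiples (nonZeroDivisors R)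
    (Finset.univ : Finset (Fin (2 * g + 1))) (fun i => co h i x)
  have hint' : ∀ i, ∃ q : R, algebraMap R K q = algebraMap R K c * co h i x := by
    intro i
    obtain ⟨q, hq⟩ := hint i (Finset.mem_univ i)
    exact ⟨q, by rw [hq, Algebra.smul_def]⟩
  choose q hq using hint'
  refine ⟨c, ∑ i, q i • t ^ (i : ℕ), nonZeroDivisors.ne_zero hc, ?_⟩
  rw [sum_t ht]
  have h1 : Crd g θ q (algebraMap R L c * x) := by
    refine crd_of_co h fun i => ?_
    rw [smul_alg (K := K), map_smul, smul_eq_mul, hq]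
  exact h1

/-- integrality at the primes over `𝔭` -/
theorem exists_den_p (h : IsG g K f θ) {t : O} (ht : algebraMap O L t = θ) {𝔭 : Ideal R}
    (hp : 𝔭.IsPrime) (hp0 : 𝔭 ≠ ⊥) (x : L)
    (hx : ∀ 𝔓 : HeightOneSpectrum O, Ov 𝔭 𝔓 → 𝔓.valuation L x ≤ 1) :
    ∃ (c : R) (z : O), c ∉ 𝔭 ∧ algebraMap R L c * x = algebraMap O L z := by
  obtain ⟨d, z, hd, hz⟩ := exists_den (K := K) (O := O) h ht x
  have hu : ¬ IsUnit 𝔭 := by
    rw [Ideal.isUnit_iff]
    exact hp.ne_top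
  have hd0 : (Ideal.span {d} : Ideal R) ≠ 0 := by
    rw [Ne, Ideal.zero_eq_bot, Ideal.span_singleton_eq_bot]
    exact hd
  obtain ⟨k, 𝔠, hdc, hc⟩ : ∃ (k : ℕ) (𝔠 : Ideal R), Ideal.span {d} = 𝔭 ^ k * 𝔠 ∧ ¬ 𝔭 ∣ 𝔠 := by
    obtain ⟨𝔠, h1, h2⟩ :=
      (FiniteMultiplicity.of_not_isUnit hu hd0).exists_eq_pow_mul_and_not_dvd
    exact ⟨_, 𝔠, h1, h2⟩
  rw [Ideal.dvd_iff_le] at hc
  obtain ⟨c, hc1, hc2⟩ := SetLike.not_le_iff_exists.1 hc
  have hint : ∀ 𝔓 : HeightOneSpectrum O, 𝔓.valuation L (algebraMap R L c * x) ≤ 1 := by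
    intro 𝔓
    by_cases hov : Ov 𝔭 𝔓
    · rw [map_mul, IsScalarTower.algebraMap_apply R O L]
      exact mul_le_one' (𝔓.valuation_le_one _) (hx 𝔓 hov)
    · unfold Ov at hov
      push Not at hov
      obtain ⟨a, ha1, ha2⟩ := hov
      have h1 : 𝔓.valuation L (algebraMap R L a) = 1 := by
        rw [IsScalarTower.algebraMap_apply R O L]
        exact 𝔓.valuation_eq_one_iff_notMem.mpr ha2
      have h4 : a ^ k * c ∈ Ideal.span {d} := by
        rw [hdc]
        exact Ideal.mul_mem_mul (Ideal.pow_mem_pow ha1 _) hc1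
      obtain ⟨e, he⟩ := Ideal.mem_span_singleton.1 h4
      have h2 : algebraMap R L a ^ k *
          (algebraMap R L c * x) = algebraMap O L (algebraMap R O e * z) := by
        rw [map_mul, ← hz, ← IsScalarTower.algebraMap_apply, ← mul_assoc, ← map_pow, ← map_mul, he,
          map_mul]
        ring
      have h3 : 𝔓.valuation L (algebraMap O L (algebraMap R O e * z)) ≤ 1 :=
        𝔓.valuation_le_one _
      rw [← h2, map_mul, map_pow, h1, one_pow, one_mul] at h3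
      exact h3
  obtain ⟨z', hz'⟩ := HeightOneSpectrum.mem_integers_of_valuation_le_one L _ hint
  exact ⟨c, z', hc2, hz'.symm⟩

theorem repr_mem {n : ℕ} (b : Module.Basis (Fin n) R O) {𝔭 : Ideal R} {w : O}
    (hw : w ∈ 𝔭.map (algebraMap R O)) (i : Fin n) : b.repr w i ∈ 𝔭 := by
  have key : ∀ w ∈ 𝔭.map (algebraMap R O), ∀ i, b.repr w i ∈ 𝔭 := by
    intro w hw
    unfold Ideal.map at hw
    induction hw using Submodule.span_induction with
    | mem x hx =>
      obtain ⟨a, ha, rfl⟩ := hx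
      intro i
      have e : algebraMap R O a = a • (1 : O) := by rw [Algebra.smul_def, mul_one]
      rw [e, map_smul, Finsupp.smul_apply, smul_eq_mul]
      exact Ideal.mul_mem_right _ _ ha
    | zero =>
      intro i
      rw [map_zero]
      exact 𝔭.zero_mem
    | add x y _ _ h1 h2 =>
      intro i
      rw [map_add, Finsupp.add_apply]
      exact 𝔭.add_mem (h1 i) (h2 i)
    | smul y x _ h1 =>
      intro i
      have e : y • x = ∑ j, b.repr x j • (y * b j) := by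
        rw [smul_eq_mul]
        conv_lhs => rw [← b.sum_repr x]
        rw [Finset.mul_sum]
        refine Finset.sum_congr rfl fun j _ => ?_
        rw [mul_smul_comm]
      rw [e, map_sum, Finsupp.finsetSum_apply]
      refine 𝔭.sum_mem fun j _ => ?_
      rw [map_smul, Finsupp.smul_apply, smul_eq_mul]
      exact Ideal.mul_mem_right _ _ (h1 j)
  exact key w hw i

/-- norms modulo `𝔭` -/
theorem norm_congr {n : ℕ} (b : Module.Basis (Fin n) R O) {𝔭 : Ideal R} {a a' : O}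
    (h : a - a' ∈ 𝔭.map (algebraMap R O)) : Ideal.Quotient.mk 𝔭 (Algebra.norm R a) =
      Ideal.Quotient.mk 𝔭 (Algebra.norm R a') := by
  rw [Algebra.norm_eq_matrix_det b, Algebra.norm_eq_matrix_det b, RingHom.map_det,
    RingHom.map_det]
  congr 1
  ext i j
  rw [RingHom.mapMatrix_apply, RingHom.mapMatrix_apply, Matrix.map_apply, Matrix.map_apply,
    Algebra.leftMulMatrix_eq_repr_mul, Algebra.leftMulMatrix_eq_repr_mul, Ideal.Quotient.eq,
    ← Finsupp.sub_apply, ← map_sub, ← sub_mul]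
  exact repr_mem b (Ideal.mul_mem_right _ _ h) i

/-- The integral case. -/
theorem ns_int (h : IsG g K f θ) {𝔭 : Ideal R} (hp : 𝔭.IsPrime) (hp0 : 𝔭 ≠ ⊥) {t : O}
    (b : Module.Basis (Fin (2 * g + 1)) R O) (hb : ∀ i, b i = t ^ (i : ℕ))
    {𝔓 𝔮 : HeightOneSpectrum O} (hne : 𝔓 ≠ 𝔮) (ov1 : Ov 𝔭 𝔓) (ht : t ∈ 𝔓.asIdeal)
    (hboth : ∀ {w : O}, w ∈ 𝔓.asIdeal → w ∈ 𝔮.asIdeal → w ∈ 𝔭.map (algebraMap R O))
    {y : O} (hy1 : y ∉ 𝔓.asIdeal) (hy2 : y ∉ 𝔮.asIdeal)
    (hn : IsSquare (Algebra.norm K (algebraMap O L y)))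
    (hs : Sq1 𝔮 (algebraMap O L y)) : Sq1 𝔓 (algebraMap O L y) := by
  have hvy1 : 𝔓.valuation L (algebraMap O L y) = 1 := 𝔓.valuation_eq_one_iff_notMem.mpr hy1
  have hvy2 : 𝔮.valuation L (algebraMap O L y) = 1 := 𝔮.valuation_eq_one_iff_notMem.mpr hy2
  -- the norm
  obtain ⟨r, hr⟩ := hn
  rw [← norm_alg h b] at hr
  have hint : IsIntegral R r := by
    refine IsIntegral.of_pow (n := 2) (by norm_num) ?_
    rw [sq, ← hr]
    exact isIntegral_algebraMap
  obtain ⟨m, rfl⟩ := IsIntegrallyClosed.isIntegral_iff.mp hint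
  rw [← map_mul] at hr
  have hm := IsFractionRing.injective R K hr
  -- the square root at `𝔮`
  obtain ⟨s, hs⟩ := hs
  rw [hvy2] at hs
  have hs1 : 𝔮.valuation L s ≤ 1 := by
    by_contra hgt
    push Not at hgt
    have h3 : 𝔮.valuation L (algebraMap O L y) < 𝔮.valuation L (s ^ 2) := by
      rw [hvy2, map_pow]
      exact one_lt_pow' hgt (by norm_num)
    have h4 : 𝔮.valuation L (algebraMap O L y - s ^ 2) = 𝔮.valuation L (s ^ 2) := by
      rw [Valuation.map_sub_swap]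
      exact Valuation.map_sub_eq_of_lt_left _ h3
    rw [h4] at hs
    exact absurd (hvy2 ▸ h3) (not_lt.mpr hs.le)
  obtain ⟨z, hz⟩ := 𝔮.exists_valuation_sub_lt_of_integer hs1 1
  rw [Units.val_one] at hz
  have hyz : y - z ^ 2 ∈ 𝔮.asIdeal := by
    rw [← 𝔮.valuation_lt_one_iff_mem (K := L)]
    change 𝔮.valuation L (algebraMap O L (y - z ^ 2)) < 1
    have e : algebraMap O L (y - z ^ 2) = (algebraMap O L y - s ^ 2) -
        (algebraMap O L z - s) * (algebraMap O L z + s) := by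
      rw [map_sub, map_pow]
      ring
    rw [e]
    refine Valuation.map_sub_lt _ hs ?_
    rw [map_mul]
    have h5 : 𝔮.valuation L (algebraMap O L z + s) ≤ 1 :=
      Valuation.map_add_le _ (𝔮.valuation_le_one _) hs1
    calc 𝔮.valuation L (algebraMap O L z - s) * 𝔮.valuation L (algebraMap O L z + s)
        ≤ 𝔮.valuation L (algebraMap O L z - s) * 1 := mul_le_mul_right h5 _
      _ = 𝔮.valuation L (algebraMap O L z - s) := mul_one _
      _ < 1 := hz
  -- the idempotents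
  have hcop : IsCoprime 𝔓.asIdeal 𝔮.asIdeal := by
    rw [Ideal.isCoprime_iff_sup_eq]
    exact 𝔓.isMaximal.coprime_of_ne 𝔮.isMaximal fun h => hne (HeightOneSpectrum.ext h)
  obtain ⟨i, hi, j, hj, hij⟩ := Ideal.isCoprime_iff_exists.mp hcop
  -- constant coordinates
  have hrep : ∀ x : O, x - algebraMap R O (b.repr x 0) ∈ 𝔓.asIdeal := by
    intro x
    have h1 : x - algebraMap R O (b.repr x 0) =
        ∑ l ∈ Finset.univ.erase (0 : Fin (2 * g + 1)), b.repr x l • b l := by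
      have h2 := b.sum_repr x
      rw [← Finset.add_sum_erase _ _ (Finset.mem_univ (0 : Fin (2 * g + 1)))] at h2
      have h3 : algebraMap R O (b.repr x 0) = b.repr x 0 • b 0 := by
        rw [Algebra.smul_def, hb]
        simp
      rw [h3]
      exact sub_eq_of_eq_add' h2.symm
    rw [h1]
    refine Ideal.sum_mem _ fun l hl => ?_
    rw [Algebra.smul_def, hb]
    refine Ideal.mul_mem_left _ _ ?_
    have hl0 : (l : ℕ) ≠ 0 := fun h0 => (Finset.mem_erase.1 hl).1 (Fin.ext (by simpa using h0))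
    exact Ideal.pow_mem_of_mem _ ht _ (Nat.pos_of_ne_zero hl0)
  obtain ⟨c, hc⟩ : ∃ c, c = b.repr y 0 := ⟨_, rfl⟩
  have hyc : y - algebraMap R O c ∈ 𝔓.asIdeal := by
    rw [hc]
    exact hrep y
  obtain ⟨S, hS⟩ : ∃ S : O, S = z * i + j := ⟨_, rfl⟩
  have hSz : S - z ∈ 𝔮.asIdeal := by
    have e : S - z = (1 - z) * j := by
      rw [hS]
      linear_combination z * hij
    rw [e]
    exact Ideal.mul_mem_left _ _ hj
  have hS1 : S - 1 ∈ 𝔓.asIdeal := by
    have e : S - 1 = (z - 1) * i := by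
      rw [hS]
      linear_combination hij
    rw [e]
    exact Ideal.mul_mem_left _ _ hi
  obtain ⟨e', he'⟩ : ∃ e' : O, e' = 1 + algebraMap R O (c - 1) * j := ⟨_, rfl⟩
  have hw' : y - S ^ 2 * e' ∈ 𝔭.map (algebraMap R O) := by
    refine hboth ?_ ?_
    · have e : y - S ^ 2 * e' = (y - algebraMap R O c) - (S + 1) * (S - 1) * e' +
          algebraMap R O (c - 1) * i := by
        rw [he', map_sub, map_one]
        linear_combination (algebraMap R O c - 1) * (-1) * hij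
      rw [e]
      exact Ideal.add_mem _ (Ideal.sub_mem _ hyc (Ideal.mul_mem_right _ _
        (Ideal.mul_mem_left _ _ hS1))) (Ideal.mul_mem_left _ _ hi)
    · have e : y - S ^ 2 * e' = (y - z ^ 2) - (S + z) * (S - z) -
          S ^ 2 * algebraMap R O (c - 1) * j := by
        rw [he']
        ring
      rw [e]
      exact Ideal.sub_mem _ (Ideal.sub_mem _ hyz (Ideal.mul_mem_left _ _ hSz))
        (Ideal.mul_mem_left _ _ hj)
  -- the inverse of `S`
  have hS2 : S ∉ 𝔮.asIdeal := by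
    intro h0
    apply hy2
    have e : y = (y - z ^ 2) + z * (S - (S - z)) := by ring
    rw [e]
    exact Ideal.add_mem _ hyz (Ideal.mul_mem_left _ _ (Ideal.sub_mem _ h0 hSz))
  obtain ⟨r2, i2, hi2, hr2⟩ := 𝔮.isMaximal.exists_inv hS2
  have hw2 : S * (j + r2 * i) - 1 ∈ 𝔭.map (algebraMap R O) := by
    refine hboth ?_ ?_
    · have e : S * (j + r2 * i) - 1 = (S - 1) * j + (S * r2 - 1) * i := by
        linear_combination hij
      rw [e]
      exact Ideal.add_mem _ (Ideal.mul_mem_right _ _ hS1) (Ideal.mul_mem_left _ _ hi)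
    · have e : S * (j + r2 * i) - 1 = (S - S * r2) * j - i2 := by
        linear_combination (S * r2) * hij + hr2
      rw [e]
      exact Ideal.sub_mem _ (Ideal.mul_mem_left _ _ hj) hi2
  obtain ⟨S', hS'⟩ : ∃ S' : O, S' = j + r2 * i := ⟨_, rfl⟩
  rw [← hS'] at hw2
  -- the norm of `e'`
  have hjt : ∀ l : Fin (2 * g + 1), l ≠ 0 → j * b l ∈ 𝔭.map (algebraMap R O) := by
    intro l hl
    refine hboth ?_ (Ideal.mul_mem_right _ _ hj)
    rw [hb]
    have hl0 : (l : ℕ) ≠ 0 := fun h0 => hl (Fin.ext (by simpa using h0))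
    exact Ideal.mul_mem_left _ _ (Ideal.pow_mem_of_mem _ ht _ (Nat.pos_of_ne_zero hl0))
  set π := Ideal.Quotient.mk 𝔭 with hπ
  have hj0 : π (b.repr j 0) = 1 := by
    have h1 : algebraMap R O (b.repr j 0 - 1) ∈ 𝔓.asIdeal := by
      have e : algebraMap R O (b.repr j 0 - 1) = - i - (j - algebraMap R O (b.repr j 0)) := by
        rw [map_sub, map_one]
        linear_combination hij
      rw [e]
      exact Ideal.sub_mem _ (Ideal.neg_mem_iff _ |>.2 hi) (hrep j)
    rw [ov_iff hp hp0 ov1] at h1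
    have h2 : π (b.repr j 0 - 1) = 0 :=
      Ideal.Quotient.eq_zero_iff_mem.2 h1
    rw [map_sub, map_one, sub_eq_zero] at h2
    exact h2
  have hne' : π (Algebra.norm R e') = π c := by
    rw [Algebra.norm_eq_matrix_det b, RingHom.map_det]
    have hent : ∀ l l' : Fin (2 * g + 1), π (Algebra.leftMulMatrix b e' l l') =
        (if l = l' then 1 else 0) + π (c - 1) * π (b.repr (j * b l') l) := by
      intro l l'
      rw [Algebra.leftMulMatrix_eq_repr_mul]
      have e : e' * b l' = b l' + (c - 1) • (j * b l') := by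
        rw [he', Algebra.smul_def]
        ring
      rw [e, map_add, map_smul, Finsupp.add_apply, Finsupp.smul_apply, smul_eq_mul, map_add,
        map_mul, Module.Basis.repr_self, Finsupp.single_apply]
      congr 1
      by_cases hl : l = l'
      · rw [if_pos hl, if_pos hl.symm, map_one]
      · rw [if_neg hl, if_neg (fun h' => hl h'.symm), map_zero]
    have hent' : ∀ l l' : Fin (2 * g + 1), l' ≠ 0 → π (Algebra.leftMulMatrix b e' l l') =
        if l = l' then 1 else 0 := by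
      intro l l' hl'
      have hw := repr_mem b (hjt l' hl') l
      rw [hent, hπ, Ideal.Quotient.eq_zero_iff_mem.2 hw, mul_zero, add_zero]
    rw [Matrix.det_of_lowerTriangular]
    · rw [Finset.prod_eq_single (0 : Fin (2 * g + 1))]
      · rw [RingHom.mapMatrix_apply, Matrix.map_apply, hent, if_pos rfl]
        have e : b 0 = 1 := by
          rw [hb]
          simp
        rw [e, mul_one, hj0, map_sub, map_one]
        ring
      · intro l _ hl
        rw [RingHom.mapMatrix_apply, Matrix.map_apply, hent' l l hl, if_pos rfl]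
      · intro h0
        exact absurd (Finset.mem_univ _) h0
    · intro l l' hll
      have hlt : l < l' := OrderDual.toDual_lt_toDual.1 hll
      rw [RingHom.mapMatrix_apply, Matrix.map_apply, hent' l l' (by
        intro h0
        rw [h0] at hlt
        exact absurd hlt (Fin.not_lt_zero l)), if_neg hlt.ne]
  -- assembly
  have n1 : π (Algebra.norm R y) = π (Algebra.norm R S) ^ 2 * π (Algebra.norm R e') := by
    rw [hπ, norm_congr b (a' := S ^ 2 * e') hw', map_mul, map_pow, map_mul, map_pow]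
  have n2 : π (Algebra.norm R S) * π (Algebra.norm R S') = 1 := by
    rw [← map_mul, ← map_mul, hπ, norm_congr b (a' := 1) hw2, map_one, map_one]
  have n3 : π (c - (Algebra.norm R S' * m) ^ 2) = 0 := by
    rw [hne', hm, map_mul] at n1
    rw [map_sub, map_pow, map_mul, sub_eq_zero]
    have e : π c = (π (Algebra.norm R S) * π (Algebra.norm R S')) ^ 2 * π c := by
      rw [n2]
      ring
    rw [e]
    linear_combination (-(π (Algebra.norm R S')) ^ 2) * n1
  have n4 : c - (Algebra.norm R S' * m) ^ 2 ∈ 𝔭 := Ideal.Quotient.eq_zero_iff_mem.1 n3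
  refine ⟨algebraMap R L (Algebra.norm R S' * m), ?_⟩
  rw [hvy1, ← map_pow, IsScalarTower.algebraMap_apply R O L, ← map_sub]
  refine (𝔓.valuation_lt_one_iff_mem (K := L) _).mpr ?_
  have e8 : y - algebraMap R O ((Algebra.norm R S' * m) ^ 2) = (y - algebraMap R O c) +
      algebraMap R O (c - (Algebra.norm R S' * m) ^ 2) := by
    rw [map_sub]
    ring
  rw [e8]
  exact Ideal.add_mem _ hyc ((ov_iff hp hp0 ov1 _).2 n4)

end ns

section fin

open Pool.Agent.N783.PF (IsGen fF SqF S_INT S_EXQ S_PAR S_PARQ S_NS S_PIN rd Cg GoodS)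

variable {F L : Type} [Field F] [NumberField F] [Field L] [NumberField L] [Algebra F L] {g : ℕ}
  {f : (𝓞 F)[X]} {θ : L}

theorem toG (h : IsGen g f θ) : IsG g F f θ where
  mon := h.mon
  deg := h.deg
  root := by
    have h1 := h.root
    rw [aeval_def, eval₂_map] at h1
    rwa [← IsScalarTower.algebraMap_eq] at h1
  rank := h.rank
  gen := h.gen

theorem int_iff (h : ∀ x : L, IsIntegral ℤ x ↔ ∃ v : Fin (2 * g + 1) → 𝓞 F,
    x = ∑ i, algebraMap F L (v i : F) * θ ^ (i : ℕ)) (x : L) :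
    IsIntegral (𝓞 F) x ↔ ∃ v : Fin (2 * g + 1) → 𝓞 F, Crd g θ v x := by
  have h1 : IsIntegral (𝓞 F) x ↔ IsIntegral ℤ x :=
    ⟨fun h => isIntegral_trans x h, fun h => h.tower_top⟩
  rw [h1, h]
  rfl

theorem setup (hInt : S_INT) (h0 : IsGen g f θ) (hsq : SqF g f) :
    ∃ (t : 𝓞 L) (b : Module.Basis (Fin (2 * g + 1)) (𝓞 F) (𝓞 L)),
      algebraMap (𝓞 L) L t = θ ∧ ∀ i, b i = t ^ (i : ℕ) := by
  have hI := int_iff (hInt g F L f θ h0 hsq)
  have h := toG h0
  obtain ⟨t, ht⟩ := exists_t (O := 𝓞 L) h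
  obtain ⟨b, hb⟩ := exists_bas h hI ht
  exact ⟨t, b, ht, hb⟩

theorem perf : PerfectField (FractionRing (𝓞 F)) := by
  have : CharZero (FractionRing (𝓞 F)) :=
    charZero_of_injective_algebraMap (IsFractionRing.injective (𝓞 F) (FractionRing (𝓞 F)))
  infer_instance

theorem map_ne {𝔭 : Ideal (𝓞 F)} (hp0 : 𝔭 ≠ ⊥) : 𝔭.map (algebraMap (𝓞 F) (𝓞 L)) ≠ ⊥ := by
  intro h
  rw [Ideal.map_eq_bot_iff_of_injective (algO_inj (K := F) (L := L))] at h
  exact hp0 h

/-- **PAR.** -/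
theorem par (hInt : S_INT) : S_PAR := by
  intro g F L _ _ _ _ _ f θ h0 hsq 𝔭 hp hp0 𝔓₀ c hov hθ x hx hnx hoth
  have h := toG h0
  obtain ⟨t, b, ht, hb⟩ := setup hInt h0 hsq
  have hfin : Module.Finite (𝓞 F) (𝓞 L) := Module.Finite.of_basis b
  have htf : Module.IsTorsionFree (𝓞 F) (𝓞 L) := tf_O (K := F) (L := L)
  have hfd := fd h
  have hpf := perf (F := F)
  have hc : t - algebraMap (𝓞 F) (𝓞 L) c ∈ 𝔓₀.asIdeal := by
    rw [← 𝔓₀.valuation_lt_one_iff_mem (K := L)]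
    change 𝔓₀.valuation L (algebraMap (𝓞 L) L (t - algebraMap (𝓞 F) (𝓞 L) c)) < 1
    rw [map_sub, ht]
    exact hθ
  have h1 := cn_deg_one hp hp0 hov (exists_res b hb hc)
  exact parity hp hp0 𝔓₀ (by rw [h1]; exact odd_one) hx hnx
    fun 𝔓 ho hne => Or.inl (hoth 𝔓 ho hne)

/-- the residue field of a prime over a prime modulo which `f` is irreducible -/
theorem cn_irr (h0 : IsGen g f θ) {t : 𝓞 L} (ht : algebraMap (𝓞 L) L t = θ)
    [Module.Finite (𝓞 F) (𝓞 L)] [Module.IsTorsionFree (𝓞 F) (𝓞 L)] {𝔭 : Ideal (𝓞 F)}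
    (hp : 𝔭.IsPrime) (hp0 : 𝔭 ≠ ⊥) (hf : Irreducible (rd 𝔭 f)) {𝔓 : HeightOneSpectrum (𝓞 L)}
    (hov : Ov 𝔭 𝔓) : 2 * g + 1 ≤ cn (𝓞 F) 𝔭 𝔓.asIdeal := by
  have h := toG h0
  have hpf := perf (F := F)
  have hcm := ov_comap hp hp0 hov
  have hlo : 𝔓.asIdeal.LiesOver 𝔭 := ⟨hcm.symm⟩
  have hm : 𝔭.IsMaximal := hp.isMaximal hp0
  have h1 := cn_eq hp hp0 𝔓
  have h2 := (cn_pow hp hp0 𝔓.isPrime hcm).2
  have hm' : 𝔓.asIdeal.IsMaximal := 𝔓.isMaximal
  let _ : Field (𝓞 F ⧸ 𝔭) := Ideal.Quotient.field 𝔭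
  let _ : Field (𝓞 L ⧸ 𝔓.asIdeal) := Ideal.Quotient.field 𝔓.asIdeal
  have hfin : Module.Finite (𝓞 F ⧸ 𝔭) (𝓞 L ⧸ 𝔓.asIdeal) :=
    Module.finite_of_finrank_pos (by rw [← h1]; omega)
  have hroot : eval₂ (algebraMap (𝓞 F) (𝓞 L)) t f = 0 := by
    apply IsFractionRing.injective (𝓞 L) L
    rw [hom_eval₂, ht, map_zero, ← IsScalarTower.algebraMap_eq]
    exact h.root
  have hr : aeval (Ideal.Quotient.mk 𝔓.asIdeal t) (rd 𝔭 f) = 0 := by
    rw [aeval_def, eval₂_map]
    have h3 : (algebraMap (𝓞 F ⧸ 𝔭) (𝓞 L ⧸ 𝔓.asIdeal)).comp (Ideal.Quotient.mk 𝔭) =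
        (Ideal.Quotient.mk 𝔓.asIdeal).comp (algebraMap (𝓞 F) (𝓞 L)) := by
      ext x
      rfl
    rw [h3, ← hom_eval₂, hroot, map_zero]
  have hmin := minpoly.eq_of_irreducible_of_monic hf hr (h0.mon.map _)
  have hd := minpoly.natDegree_le (A := 𝓞 F ⧸ 𝔭) (Ideal.Quotient.mk 𝔓.asIdeal t)
  rw [← hmin, h0.mon.natDegree_map, h0.deg, ← h1] at hd
  exact hd

/-- **PIN.** -/
theorem pin (hInt : S_INT) : S_PIN := by
  intro g F L _ _ _ _ _ f θ h0 hsq 𝔭 hp hp0 hf x hx hnx 𝔓 hov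
  have h := toG h0
  obtain ⟨t, b, ht, hb⟩ := setup hInt h0 hsq
  have hfin : Module.Finite (𝓞 F) (𝓞 L) := Module.Finite.of_basis b
  have htf : Module.IsTorsionFree (𝓞 F) (𝓞 L) := tf_O (K := F) (L := L)
  have hfd := fd h
  have hI := map_ne (L := L) hp0
  have hsum := cn_map b hp hp0
  rw [cn_sum _ hI] at hsum
  have hterm : ∀ 𝔔 : HeightOneSpectrum (𝓞 L), Ov 𝔭 𝔔 →
      𝔔.asIdeal ∈ (normalizedFactors (𝔭.map (algebraMap (𝓞 F) (𝓞 L)))).toFinset ∧
      cn (𝓞 F) 𝔭 𝔔.asIdeal ≤ (normalizedFactors (𝔭.map (algebraMap (𝓞 F) (𝓞 L)))).count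
        𝔔.asIdeal * cn (𝓞 F) 𝔭 𝔔.asIdeal := by
    intro 𝔔 h𝔔
    have h1 := (mem_nf hI 𝔔).2 h𝔔
    refine ⟨Multiset.mem_toFinset.2 h1, ?_⟩
    exact Nat.le_mul_of_pos_left _ (Multiset.count_pos.2 h1)
  have hle : ∀ 𝔔 : HeightOneSpectrum (𝓞 L), Ov 𝔭 𝔔 → cn (𝓞 F) 𝔭 𝔔.asIdeal = 2 * g + 1 := by
    intro 𝔔 h𝔔
    obtain ⟨h1, h2⟩ := hterm 𝔔 h𝔔
    have h3 := Finset.single_le_sum (f := fun J => (normalizedFactors (𝔭.map
      (algebraMap (𝓞 F) (𝓞 L)))).count J * cn (𝓞 F) 𝔭 J) (fun i _ => Nat.zero_le _) h1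
    rw [hsum] at h3
    have h4 := cn_irr h0 ht hp hp0 hf h𝔔
    omega
  refine parity hp hp0 𝔓 (by rw [hle 𝔓 hov]; exact ⟨g, rfl⟩) hx hnx fun 𝔔 ho hne => ?_
  exfalso
  obtain ⟨h1, h2⟩ := hterm 𝔓 hov
  obtain ⟨h3, h4⟩ := hterm 𝔔 ho
  have hne' : 𝔔.asIdeal ≠ 𝔓.asIdeal := fun h' => hne (HeightOneSpectrum.ext h')
  have h5 : ∑ J ∈ {𝔔.asIdeal, 𝔓.asIdeal}, (normalizedFactors (𝔭.map
      (algebraMap (𝓞 F) (𝓞 L)))).count J * cn (𝓞 F) 𝔭 J ≤
      ∑ J ∈ (normalizedFactors (𝔭.map (algebraMap (𝓞 F) (𝓞 L)))).toFinset, (normalizedFactors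
        (𝔭.map (algebraMap (𝓞 F) (𝓞 L)))).count J * cn (𝓞 F) 𝔭 J := by
    refine Finset.sum_le_sum_of_subset ?_
    intro J hJ
    rw [Finset.mem_insert, Finset.mem_singleton] at hJ
    rcases hJ with rfl | rfl
    · exact h3
    · exact h1
  rw [Finset.sum_pair hne', hsum] at h5
  rw [hle 𝔓 hov] at h2 h5
  rw [hle 𝔔 ho] at h4 h5
  omega

/-- the factorisation of `𝔮 O` -/
theorem fac {𝔮 : Ideal (𝓞 F)} (hp0 : 𝔮 ≠ ⊥) {q : ℕ} (hq : (q : 𝓞 F) ∈ 𝔮) (hq0 : q ≠ 0)
    {𝔓₁ 𝔓₂ : HeightOneSpectrum (𝓞 L)} (hne : 𝔓₁ ≠ 𝔓₂) (ov1 : Ov 𝔮 𝔓₁) (ov2 : Ov 𝔮 𝔓₂)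
    (hv1 : 𝔓₁.valuation L (q : L) = WithZero.exp (-1 : ℤ))
    (hv2 : 𝔓₂.valuation L (q : L) = WithZero.exp (-1 : ℤ))
    (hall : ∀ 𝔓 : HeightOneSpectrum (𝓞 L), Ov 𝔮 𝔓 → 𝔓 = 𝔓₁ ∨ 𝔓 = 𝔓₂) :
    (normalizedFactors (𝔮.map (algebraMap (𝓞 F) (𝓞 L)))).count 𝔓₁.asIdeal = 1 ∧
    (normalizedFactors (𝔮.map (algebraMap (𝓞 F) (𝓞 L)))).count 𝔓₂.asIdeal = 1 ∧
    (normalizedFactors (𝔮.map (algebraMap (𝓞 F) (𝓞 L)))).toFinset =
      {𝔓₁.asIdeal, 𝔓₂.asIdeal} := by
  have hI := map_ne (L := L) hp0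
  have hqO : ((q : ℕ) : 𝓞 L) ≠ 0 := Nat.cast_ne_zero.2 hq0
  have hqI : (Ideal.span {((q : ℕ) : 𝓞 L)} : Ideal (𝓞 L)) ≠ 0 := by
    rw [Ne, Ideal.zero_eq_bot, Ideal.span_singleton_eq_bot]
    exact hqO
  have hle : normalizedFactors (𝔮.map (algebraMap (𝓞 F) (𝓞 L))) ≤
      normalizedFactors (Ideal.span {((q : ℕ) : 𝓞 L)} : Ideal (𝓞 L)) := by
    rw [← dvd_iff_normalizedFactors_le_normalizedFactors hI hqI, Ideal.dvd_iff_le,
      Ideal.span_singleton_le_iff_mem]
    have h1 := Ideal.mem_map_of_mem (algebraMap (𝓞 F) (𝓞 L)) hq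
    rwa [map_natCast] at h1
  have hcnt : ∀ 𝔓 : HeightOneSpectrum (𝓞 L), Ov 𝔮 𝔓 →
      𝔓.valuation L (q : L) = WithZero.exp (-1 : ℤ) →
      (normalizedFactors (𝔮.map (algebraMap (𝓞 F) (𝓞 L)))).count 𝔓.asIdeal = 1 := by
    intro 𝔓 ho hv
    have h1 := val_eq (L := L) 𝔓 hqO
    rw [map_natCast, hv, exp_inj] at h1
    have h2 := Multiset.le_iff_count.1 hle 𝔓.asIdeal
    have h3 := Multiset.count_pos.2 ((mem_nf hI 𝔓).2 ho)
    omega
  refine ⟨hcnt 𝔓₁ ov1 hv1, hcnt 𝔓₂ ov2 hv2, ?_⟩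
  ext J
  rw [Multiset.mem_toFinset, Finset.mem_insert, Finset.mem_singleton]
  constructor
  · intro hJ
    have hJp := prime_of_normalized_factor J hJ
    have hJ3 : J.IsPrime := Ideal.isPrime_of_prime hJp
    let 𝔓 : HeightOneSpectrum (𝓞 L) := ⟨J, hJ3, hJp.ne_zero⟩
    rcases hall 𝔓 ((mem_nf hI 𝔓).1 hJ) with h' | h'
    · left
      rw [← h']
    · right
      rw [← h']
  · rintro (rfl | rfl)
    · exact (mem_nf hI 𝔓₁).2 ov1
    · exact (mem_nf hI 𝔓₂).2 ov2

/-- **PARQ.** -/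
theorem parq (hInt : S_INT) (hE : S_EXQ) : S_PARQ := by
  intro g W F L _ _ _ _ _ f θ S 𝔮 hh P hg h0 hsq hS q hQS hCg x hx hnx 𝔓 hov hθ
  have h := toG h0
  obtain ⟨t, b, ht, hb⟩ := setup hInt h0 hsq
  have hfin : Module.Finite (𝓞 F) (𝓞 L) := Module.Finite.of_basis b
  have htf : Module.IsTorsionFree (𝓞 F) (𝓞 L) := tf_O (K := F) (L := L)
  have hfd := fd h
  have hpf := perf (F := F)
  obtain ⟨𝔓₁, 𝔓₂, ov1, ov2, hv1, hv2, hQ1, hQ2, hall⟩ :=
    hE g W F L f θ S 𝔮 hh P hg h0 hsq hS q hQS hCg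
  obtain ⟨hqp, -, -, -, -, hp, hqm, -⟩ := hS q hQS
  have hq0 : (q : 𝓞 F) ≠ 0 := Nat.cast_ne_zero.2 hqp.ne_zero
  have hp0 : 𝔮 q ≠ ⊥ := by
    intro h'
    rw [h', Ideal.mem_bot] at hqm
    exact hq0 hqm
  have h𝔓 : 𝔓 = 𝔓₁ := by
    rcases hall 𝔓 hov with h' | h'
    · exact h'
    · rw [h', hv2] at hθ
      exact absurd hθ (lt_irrefl _)
  have hne : 𝔓₁ ≠ 𝔓₂ := by
    intro h'
    rw [h', hv2] at hv1
    exact absurd hv1 (lt_irrefl _)
  obtain ⟨hc1, hc2, hset⟩ := fac hp0 hqm hqp.ne_zero hne ov1 ov2 hQ1 hQ2 hall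
  have ht1 : t - algebraMap (𝓞 F) (𝓞 L) 0 ∈ 𝔓₁.asIdeal := by
    rw [map_zero, sub_zero, ← 𝔓₁.valuation_lt_one_iff_mem (K := L)]
    change 𝔓₁.valuation L (algebraMap (𝓞 L) L t) < 1
    rw [ht]
    exact hv1
  have h1 := cn_deg_one hp hp0 ov1 (exists_res b hb ht1)
  have hsum := cn_map b hp hp0
  rw [cn_sum _ (map_ne (L := L) hp0), hset,
    Finset.sum_pair (fun h' => hne (HeightOneSpectrum.ext h')), hc1, hc2, h1] at hsum
  have h2 : cn (𝓞 F) (𝔮 q) 𝔓₂.asIdeal = 2 * g := by omega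
  rw [h𝔓]
  refine parity hp hp0 𝔓₁ (by rw [h1]; exact odd_one) hx hnx fun 𝔓' ho hne' => Or.inr ?_
  rcases hall 𝔓' ho with h' | h'
  · exact absurd h' hne'
  · rw [h', h2]
    exact even_two_mul g

/-- **NS.** -/
theorem ns (hInt : S_INT) (hE : S_EXQ) : S_NS := by
  intro g W F L _ _ _ _ _ f θ S 𝔮 hh P hg h0 hsq hS q hQS hCg x hx hnx hev hs1 𝔓 hov
  have h := toG h0
  obtain ⟨t, b, ht, hb⟩ := setup hInt h0 hsq
  obtain ⟨𝔓₁, 𝔓₂, ov1, ov2, hv1, hv2, hQ1, hQ2, hall⟩ :=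
    hE g W F L f θ S 𝔮 hh P hg h0 hsq hS q hQS hCg
  obtain ⟨hqp, -, -, -, -, hp, hqm, -⟩ := hS q hQS
  have hq0 : (q : 𝓞 F) ≠ 0 := Nat.cast_ne_zero.2 hqp.ne_zero
  have hp0 : 𝔮 q ≠ ⊥ := by
    intro h'
    rw [h', Ideal.mem_bot] at hqm
    exact hq0 hqm
  rcases hall 𝔓 hov with h𝔓 | h𝔓
  swap
  · rw [h𝔓]
    exact hs1 𝔓₂ ov2 hv2
  rw [h𝔓]
  have hne : 𝔓₁ ≠ 𝔓₂ := by
    intro h'
    rw [h', hv2] at hv1
    exact absurd hv1 (lt_irrefl _)
  obtain ⟨hc1, hc2, hset⟩ := fac hp0 hqm hqp.ne_zero hne ov1 ov2 hQ1 hQ2 hall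
  have ht1 : t ∈ 𝔓₁.asIdeal := by
    rw [← 𝔓₁.valuation_lt_one_iff_mem (K := L)]
    change 𝔓₁.valuation L (algebraMap (𝓞 L) L t) < 1
    rw [ht]
    exact hv1
  -- the intersection of the two primes
  have hboth : ∀ {w : 𝓞 L}, w ∈ 𝔓₁.asIdeal → w ∈ 𝔓₂.asIdeal →
      w ∈ (𝔮 q).map (algebraMap (𝓞 F) (𝓞 L)) := by
    intro w h1 h2
    have hI := map_ne (L := L) hp0
    by_cases hw0 : w = 0
    · rw [hw0]
      exact Ideal.zero_mem _
    have hwI : (Ideal.span {w} : Ideal (𝓞 L)) ≠ 0 := by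
      rw [Ne, Ideal.zero_eq_bot, Ideal.span_singleton_eq_bot]
      exact hw0
    have hdvd : (𝔮 q).map (algebraMap (𝓞 F) (𝓞 L)) ∣ Ideal.span {w} := by
      rw [dvd_iff_normalizedFactors_le_normalizedFactors hI hwI, Multiset.le_iff_count]
      intro J
      by_cases hJ : J ∈ normalizedFactors ((𝔮 q).map (algebraMap (𝓞 F) (𝓞 L)))
      · have hJ' := Multiset.mem_toFinset.2 hJ
        rw [hset, Finset.mem_insert, Finset.mem_singleton] at hJ'
        rcases hJ' with rfl | rfl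
        · rw [hc1]
          refine Multiset.count_pos.2 ?_
          rw [Ideal.mem_normalizedFactors_iff hwI, Ideal.span_singleton_le_iff_mem]
          exact ⟨𝔓₁.isPrime, h1⟩
        · rw [hc2]
          refine Multiset.count_pos.2 ?_
          rw [Ideal.mem_normalizedFactors_iff hwI, Ideal.span_singleton_le_iff_mem]
          exact ⟨𝔓₂.isPrime, h2⟩
      · rw [Multiset.count_eq_zero_of_notMem hJ]
        exact Nat.zero_le _
    rw [Ideal.dvd_iff_le, Ideal.span_singleton_le_iff_mem] at hdvd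
    exact hdvd
  have hsq2 : Sq1 𝔓₂ x := hs1 𝔓₂ ov2 hv2
  obtain ⟨y1, hy1⟩ := hev 𝔓₁ ov1 hv1
  -- `Sq1` implies `Ev`
  obtain ⟨s, hs⟩ := hsq2
  have hvs : 𝔓₂.valuation L x = 𝔓₂.valuation L s ^ 2 := by
    have h3 : 𝔓₂.valuation L (x - (x - s ^ 2)) = 𝔓₂.valuation L x :=
      Valuation.map_sub_eq_of_lt_left _ hs
    rw [sub_sub_cancel, map_pow] at h3
    exact h3.symm
  have hvx1 : 𝔓₁.valuation L x ≠ 0 := (Valuation.ne_zero_iff _).mpr hx
  have hvx2 : 𝔓₂.valuation L x ≠ 0 := (Valuation.ne_zero_iff _).mpr hx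
  have hy10 : 𝔓₁.valuation L y1 ≠ 0 := by
    intro h'
    rw [h'] at hy1
    exact hvx1 (by rw [hy1]; simp)
  have hs0 : 𝔓₂.valuation L s ≠ 0 := by
    intro h'
    rw [h'] at hvs
    exact hvx2 (by rw [hvs]; simp)
  obtain ⟨β, hβ0, hβ1, hβ2⟩ := exists_two (L := L) hne (log (𝔓₁.valuation L y1))
    (log (𝔓₂.valuation L s))
  rw [exp_log hy10] at hβ1
  rw [exp_log hs0] at hβ2
  -- `x / β ^ 2` is a unit at both primes
  have hu1 : 𝔓₁.valuation L (x / β ^ 2) = 1 := by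
    rw [map_div₀, map_pow, hβ1, ← hy1, div_self hvx1]
  have hu2 : 𝔓₂.valuation L (x / β ^ 2) = 1 := by
    rw [map_div₀, map_pow, hβ2, ← hvs, div_self hvx2]
  obtain ⟨c, z, hc, hz⟩ := exists_den_p (O := 𝓞 L) h ht hp hp0 (x / β ^ 2) (by
    intro 𝔓' hov'
    rcases hall 𝔓' hov' with h' | h'
    · rw [h', hu1]
    · rw [h', hu2])
  have hc0 : algebraMap (𝓞 F) L c ≠ 0 := by
    intro h'
    have : c = 0 := algL_inj (K := F) (by rw [h', map_zero])
    exact hc (by rw [this]; exact Ideal.zero_mem _)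
  have hvc : ∀ 𝔓 : HeightOneSpectrum (𝓞 L), Ov (𝔮 q) 𝔓 →
      𝔓.valuation L (algebraMap (𝓞 F) L c) = 1 := by
    intro 𝔓' hov'
    rw [IsScalarTower.algebraMap_apply (𝓞 F) (𝓞 L) L]
    refine 𝔓'.valuation_eq_one_iff_notMem.mpr ?_
    rw [ov_iff hp hp0 hov']
    exact hc
  -- `y = c ^ 2 x / β ^ 2`
  have hy : algebraMap (𝓞 L) L (algebraMap (𝓞 F) (𝓞 L) c * z) =
      x * (algebraMap (𝓞 F) L c / β) ^ 2 := by
    rw [map_mul, ← hz, ← IsScalarTower.algebraMap_apply (𝓞 F) (𝓞 L) L]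
    field_simp
  have hcβ : algebraMap (𝓞 F) L c / β ≠ 0 := div_ne_zero hc0 hβ0
  rw [← sq1_mul_sq hcβ, ← hy]
  refine ns_int h hp hp0 b hb hne ov1 ht1 hboth ?_ ?_ ?_ ?_
  · rw [← 𝔓₁.valuation_eq_one_iff_notMem (K := L), hy, map_mul, map_pow, map_div₀, hvc 𝔓₁ ov1,
      hβ1, hy1, div_pow, one_pow, mul_one_div, div_self (pow_ne_zero 2 hy10)]
  · rw [← 𝔓₂.valuation_eq_one_iff_notMem (K := L), hy, map_mul, map_pow, map_div₀, hvc 𝔓₂ ov2,
      hβ2, hvs, div_pow, one_pow, mul_one_div, div_self (pow_ne_zero 2 hs0)]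
  · rw [hy, map_mul, map_pow]
    exact hnx.mul (IsSquare.sq _)
  · rw [hy, sq1_mul_sq hcβ]
    exact ⟨s, hs⟩

end fin

end Pool.Agent.N426.PF
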